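import Mathlib
import Pool.Agent.Lib.helper23.Rec

open Set Filter Cardinal

namespace Pool.Agent.H.MP_f6153b_al

lemma maxc {α : Type} (P : α → Prop) (r : α → α → Prop) :
    ∃ C : Set α, (∀ a ∈ C, P a) ∧ (∀ a ∈ C, ∀ b ∈ C, a ≠ b → r a b ∨ r b a) ∧
      ∀ a, P a → (∀ b ∈ C, r a b ∨ r b a) → a ∈ C := by
  have h := maxChain_spec (r := fun a b : {a // P a} => r a.1 b.1)
  refine ⟨Subtype.val '' maxChain fun a b : {a // P a} => r a.1 b.1, ?_, ?_, fun a ha hb => ?_⟩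
  · rintro _ ⟨a, -, rfl⟩; exact a.2
  · rintro _ ⟨a, ha, rfl⟩ _ ⟨b, hb, rfl⟩ hab
    exact h.1 ha hb fun e => hab (congrArg _ e)
  · refine ⟨⟨a, ha⟩, ?_, rfl⟩
    rw [h.2 (h.1.insert (a := ⟨a, ha⟩) fun b hb' _ => hb _ ⟨b, hb', rfl⟩) (subset_insert _ _)]
    exact mem_insert _ _

lemma pseudo (P : ℕ → Set ℕ) (anti : Antitone P) (inf : ∀ n, (P n).Infinite) :
    ∃ Y : Set ℕ, Y.Infinite ∧ Y ⊆ P 0 ∧ ∀ n, (Y \ P n).Finite := by
  choose y hy hy' using fun n => (inf n).exists_gt n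
  refine ⟨range y, infinite_of_not_bddAbove fun ⟨m, hm⟩ => (hy' m).not_ge (hm ⟨m, rfl⟩), ?_,
    fun n => ((finite_lt_nat n).image y).subset ?_⟩
  · rintro _ ⟨n, rfl⟩; exact anti (Nat.zero_le _) (hy n)
  · rintro _ ⟨⟨m, rfl⟩, hm⟩
    exact ⟨m, not_le.1 fun h => hm (anti h (hy m)), rfl⟩

/-- A splitting family any two members of which are almost disjoint or almost comparable. -/
def Tree (T : Set (Set ℕ)) : Prop :=
  (∀ A ∈ T, ∀ B ∈ T, (A ∩ B).Finite ∨ (A \ B).Finite ∨ (B \ A).Finite) ∧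
    ∀ Y : Set ℕ, Y.Infinite → ∃ A ∈ T, (Y ∩ A).Infinite ∧ (Y \ A).Infinite

lemma exists_tree : ∃ T, Tree T := by
  obtain ⟨T, -, h1, h2⟩ := maxc (fun _ : Set ℕ => True)
    fun A B => (A ∩ B).Finite ∨ (A \ B).Finite
  refine ⟨T, fun A hA B hB => ?_, fun Y hY => ?_⟩
  · by_cases h : A = B
    · simp [h]
    · rcases h1 A hA B hB h with (h | h) | h | h
      · exact .inl h
      · exact .inr (.inl h)
      · exact .inl (inter_comm _ _ ▸ h)
      · exact .inr (.inr h)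
  · by_contra hn
    push Not at hn
    have := hY.to_subtype
    let e := (Denumerable.eqv ℕ).symm.toEmbedding.trans hY.natEmbedding
    let Z : Set ℕ := range fun n => (e (2 * n)).1
    have hZ : Z ⊆ Y := by rintro _ ⟨n, rfl⟩; exact (e _).2
    have i1 : (Y ∩ Z).Infinite := by
      rw [inter_eq_right.2 hZ]
      exact infinite_range_of_injective fun a b h => by
        have := e.injective (Subtype.ext h); omega
    have i2 : (Y \ Z).Infinite := by
      refine infinite_of_injective_forall_mem (f := fun n => (e (2 * n + 1)).1) (fun a b h => by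
        have := e.injective (Subtype.ext h); omega) fun n => ⟨(e _).2, ?_⟩
      rintro ⟨m, hm⟩
      have := e.injective (Subtype.ext hm); omega
    refine i2 (hn Z (h2 Z trivial fun B hB => .inl ?_) i1)
    by_cases h : (Y ∩ B).Infinite
    · exact .inr ((hn B hB h).subset (sdiff_subset_sdiff_left hZ))
    · exact .inl ((not_infinite.1 h).subset (inter_subset_inter_left _ hZ))

/-- A maximal chain of members of `T` meeting `Y` in an infinite set. -/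
def Br (T : Set (Set ℕ)) (Y : Set ℕ) (C : Set (Set ℕ)) : Prop :=
  Y.Infinite ∧ (∀ A ∈ C, A ∈ T ∧ (Y ∩ A).Infinite) ∧
    (∀ A ∈ C, ∀ B ∈ C, (A \ B).Finite ∨ (B \ A).Finite) ∧
    ∀ A ∈ T, (Y ∩ A).Infinite → (∀ B ∈ C, (A \ B).Finite ∨ (B \ A).Finite) → A ∈ C

lemma exists_br (T : Set (Set ℕ)) (Y : Set ℕ) (hY : Y.Infinite) : ∃ C, Br T Y C := by
  obtain ⟨C, h1, h2, h3⟩ := maxc (fun A => A ∈ T ∧ (Y ∩ A).Infinite) fun A B => (A \ B).Finite
  refine ⟨C, hY, h1, fun A hA B hB => ?_, fun A hA hA' h => h3 A ⟨hA, hA'⟩ h⟩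
  by_cases h : A = B
  · simp [h]
  · exact h2 A hA B hB h

lemma Br.mem {T Y C} (hT : Tree T) (h : Br T Y C) {A} (hA : A ∈ T) {Z : Set ℕ} (hZ : Z.Infinite)
    (h1 : Z ⊆ Y ∩ A) (h2 : ∀ B ∈ C, (Y ∩ A ∩ B).Infinite) : A ∈ C := by
  refine h.2.2.2 A hA (hZ.mono h1) fun B hB => (hT.1 A hA B (h.2.1 B hB).1).resolve_left ?_
  exact (h2 B hB).mono fun x hx => ⟨hx.1.2, hx.2⟩

lemma Br.ne {T Y C} (hT : Tree T) (h : Br T Y C) : C.Nonempty := by
  obtain ⟨A, hA, h1, -⟩ := hT.2 Y h.1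
  by_contra hn
  exact hn ⟨A, h.mem hT hA h1 subset_rfl fun B hB => absurd ⟨B, hB⟩ hn⟩

/-- The filter of a branch. -/
def Br.fil {T Y C} (hT : Tree T) (h : Br T Y C) : Filter ℕ where
  sets := {Z | ∃ A ∈ C, ((Y ∩ A) \ Z).Finite}
  univ_sets := (h.ne hT).imp fun _ hA => ⟨hA, by simp⟩
  sets_of_superset := fun ⟨A, hA, h⟩ hs => ⟨A, hA, h.subset (sdiff_subset_sdiff_right hs)⟩
  inter_sets := fun ⟨A, hA, h1⟩ ⟨B, hB, h2⟩ => by
    rcases h.2.2.1 A hA B hB with e | e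
    · exact ⟨A, hA, ((h1.union h2).union e).subset fun x => by simp; tauto⟩
    · exact ⟨B, hB, ((h1.union h2).union e).subset fun x => by simp; tauto⟩

lemma Br.le {T Y C} (hT : Tree T) (h : Br T Y C) : h.fil hT ≤ cofinite := fun _ hZ =>
  (h.ne hT).imp fun _ hA => ⟨hA, (mem_cofinite.1 hZ).subset fun _ hx => hx.2⟩

lemma Br.inf {T Y C} (hT : Tree T) (h : Br T Y C) {Z} (hZ : Z ∈ h.fil hT) : Z.Infinite := by
  obtain ⟨A, hA, h1⟩ := hZ
  exact fun h2 => (h.2.1 A hA).2 ((h1.union h2).subset fun x => by simp; tauto)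

lemma Br.pf {T Y C} (hT : Tree T) (h : Br T Y C) (Z : ℕ → Set ℕ) (hZ : ∀ n, Z n ∈ h.fil hT) :
    ∃ W ∈ h.fil hT, ∀ n, (W \ Z n).Finite := by
  choose A hA hA' using id hZ
  by_cases hn : ∃ B ∈ C, ∀ n, (B \ A n).Finite
  · obtain ⟨B, hB, hB'⟩ := hn
    exact ⟨Y ∩ B, ⟨B, hB, by simp⟩, fun n => ((hA' n).union (hB' n)).subset fun x => by
      simp; tauto⟩
  exfalso
  push Not at hn
  have hY : Y ∈ h.fil hT := ⟨A 0, hA 0, finite_empty.subset fun x hx => hx.2 hx.1.1⟩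
  obtain ⟨W, w1, w2, w3⟩ := pseudo (fun n => Y ∩ ⋂ i ≤ n, A i)
    (fun a b hab => inter_subset_inter_right _ (biInter_subset_biInter_left fun i hi => le_trans hi hab))
    fun n => h.inf hT (inter_mem hY ((biInter_mem (finite_le_nat n)).2 fun i _ =>
      ⟨A i, hA i, finite_empty.subset fun x hx => hx.2 hx.1.2⟩))
  have w4 : ∀ B ∈ C, (W \ B).Finite := by
    intro B hB
    obtain ⟨n, hn⟩ := hn B hB
    refine ((w3 n).union ((h.2.2.1 B hB _ (hA n)).resolve_left hn)).subset fun x hx => ?_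
    by_cases h : x ∈ A n
    · exact .inr ⟨h, hx.2⟩
    · exact .inl ⟨hx.1, fun h' => h (mem_iInter₂.1 h'.2 n le_rfl)⟩
  obtain ⟨B, hB, b1, b2⟩ := hT.2 W w1
  refine b2 (w4 B (h.mem hT hB b1 (inter_subset_inter_left _ fun x hx => (w2 hx).1)
    fun D hD => (b1.sdiff (w4 D hD)).mono fun x hx => ?_))
  exact ⟨⟨(w2 hx.1.1).1, hx.1.2⟩, by_contra fun h => hx.2 ⟨hx.1.1, h⟩⟩

lemma Br.inc {T Y C Y' C'} (hT : Tree T) (h : Br T Y C) (h' : Br T Y' C') {A} (hA : A ∈ C')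
    (hA' : A ∉ C) : ∃ Z ∈ h.fil hT, ∃ Z' ∈ h'.fil hT, (Z ∩ Z').Finite := by
  by_contra hn
  push Not at hn
  have a : A ∈ h'.fil hT := ⟨A, hA, finite_empty.subset fun x hx => hx.2 hx.1.2⟩
  obtain ⟨B, hB⟩ := h.ne hT
  refine hA' (h.mem hT (h'.2.1 A hA).1 
    (hn Y ⟨B, hB, finite_empty.subset fun x hx => hx.2 hx.1.1⟩ A a) subset_rfl fun B hB => ?_)
  exact (hn (Y ∩ B) ⟨B, hB, by simp⟩ A a).mono fun x hx => ⟨⟨hx.1.1, hx.2⟩, hx.1.2⟩

lemma many {T} (hT : Tree T) (X : Set ℕ) (hX : X.Infinite) :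
    ∃ (Y : (ℕ → Bool) → Set ℕ) (C : (ℕ → Bool) → Set (Set ℕ)),
      (∀ f, Y f ⊆ X ∧ Br T (Y f) (C f)) ∧ Function.Injective C := by
  classical
  choose! s s1 s2 s3 using hT.2
  let P : (ℕ → Bool) → ℕ → Set ℕ := fun f n =>
    Nat.rec X (fun n Q => if f n then Q ∩ s Q else Q \ s Q) n
  have p0 : ∀ f n, P f (n + 1) = if f n then P f n ∩ s (P f n) else P f n \ s (P f n) :=
    fun _ _ => rfl
  have p1 : ∀ f n, (P f n).Infinite := by
    intro f n
    induction n with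
    | zero => exact hX
    | succ n ih => rw [p0]; split_ifs; exacts [s2 _ ih, s3 _ ih]
  have p2 : ∀ f, Antitone (P f) := fun f => antitone_nat_of_succ_le fun n => by
    rw [p0]; split_ifs; exacts [inter_subset_left, sdiff_subset]
  have p3 : ∀ f g n, (∀ i < n, f i = g i) → P f n = P g n := by
    intro f g n h
    induction n with
    | zero => rfl
    | succ n ih => rw [p0, p0, ih fun i hi => h i (by omega), h n (by omega)]
  choose Y y1 y2 y3 using fun f => pseudo (P f) (p2 f) (p1 f)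
  choose C hC using fun f => exists_br T (Y f) (y1 f)
  have key : ∀ f g n, P f n = P g n → f n = true → g n = false → C f ≠ C g := by
    intro f g n e h1 h2 h
    have a1 := y3 f (n + 1)
    have a2 := y3 g (n + 1)
    rw [p0, if_pos h1] at a1
    rw [p0, if_neg (by simp [h2]), ← e] at a2
    have : s (P f n) ∈ C f := (hC f).mem hT (s1 _ (p1 f n)) ((y1 f).sdiff a1)
      (fun x hx => ⟨hx.1, by_contra fun h => hx.2 ⟨hx.1, fun h' => h h'.2⟩⟩) fun B hB =>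
        (((hC f).2.1 B hB).2.sdiff a1).mono fun x hx =>
          ⟨⟨hx.1.1, by_contra fun h => hx.2 ⟨hx.1.1, fun h' => h h'.2⟩⟩, hx.1.2⟩
    exact ((hC g).2.1 _ (h ▸ this)).2 (a2.subset fun x hx => ⟨hx.1, fun h => h.2 hx.2⟩)
  refine ⟨Y, C, fun f => ⟨y2 f, hC f⟩, fun f g h => by_contra fun hn => ?_⟩
  have hn : ∃ n, f n ≠ g n := Function.ne_iff.1 hn
  have e := p3 f g (Nat.find hn) fun i hi => not_not.1 (Nat.find_min hn hi)
  have := Nat.find_spec hn
  cases h1 : f (Nat.find hn) <;> cases h2 : g (Nat.find hn)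
  · exact this (h1.trans h2.symm)
  · exact key g f _ e.symm h2 h1 h.symm
  · exact key f g _ e h1 h2 h
  · exact this (h1.trans h2.symm)

lemma sdr {ι β : Type} [Nonempty ι] (hι : #ι ≤ continuum) (o : ι → (ℕ → Bool) → β)
    (ho : ∀ i, Function.Injective (o i)) :
    ∃ g : ι → ℕ → Bool, Function.Injective fun i => o i (g i) := by
  obtain ⟨e⟩ : Nonempty (ι ↪ continuum.ord.ToType) := by
    rw [← Cardinal.le_def, mk_ord_toType]; exact hι
  let σ := Function.invFun e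
  obtain ⟨g, hg⟩ := Pool.Agent.Lib.helper23.trans_rec (W := continuum.ord.ToType) (S := ℕ → Bool)
    (fun w g s => ∀ v < w, o (σ w) s ≠ o (σ v) (g v))
    (fun w f g s h h' v hv => h v hv ▸ h' v hv) fun w f _ => by
      by_contra hn
      push Not at hn
      choose v hv hv' using hn
      have : #(ℕ → Bool) ≤ #(Iio w) := mk_le_of_injective (f := fun s => ⟨v s, hv s⟩)
        fun s t h => ho (σ w) (by rw [hv', hv', show v s = v t from congrArg Subtype.val h])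
      exact (mk_Iio_lt w (by simp)).not_ge (by simpa using this)
  have hσ : ∀ i, σ (e i) = i := Function.leftInverse_invFun e.injective
  refine ⟨fun i => g (e i), fun i j h => e.injective (by_contra fun hn => ?_)⟩
  rcases lt_or_gt_of_ne hn with h' | h'
  · exact hg _ _ h' (by simpa [hσ] using h.symm)
  · exact hg _ _ h' (by simpa [hσ] using h)

theorem filters {ι : Type} [Nonempty ι] (hι : #ι ≤ continuum) (X : ι → Set ℕ)
    (hX : ∀ i, (X i).Infinite) : ∃ Φ : ι → Filter ℕ,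
      (∀ i, Φ i ≤ cofinite ∧ X i ∈ Φ i ∧ ∀ Z ∈ Φ i, Z.Infinite) ∧
      ∀ α : Set ι, α.Countable → ∃ Z : ι → Set ℕ, (∀ i ∈ α, Z i ∈ Φ i) ∧
        ∀ i ∈ α, ∀ j ∈ α, i ≠ j → Disjoint (Z i) (Z j) := by
  classical
  obtain ⟨T, hT⟩ := exists_tree
  choose Y C h hC using fun i => many hT (X i) (hX i)
  obtain ⟨g, hg⟩ := sdr hι C hC
  let Φ := fun i => (h i (g i)).2.fil hT
  refine ⟨Φ, fun i => ⟨Br.le _ _, ((h i (g i)).2.ne hT).imp fun A hA => ⟨hA, by
    rw [sdiff_eq_empty.2 (inter_subset_left.trans (h i (g i)).1)]; exact finite_empty⟩,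
    fun Z hZ => Br.inf _ _ hZ⟩, fun α hα => ?_⟩
  have inc : ∀ i j, ∃ Z ∈ Φ i, ∃ Z' ∈ Φ j, i ≠ j → (Z ∩ Z').Finite := by
    intro i j
    by_cases e : i = j
    · exact ⟨_, univ_mem, _, univ_mem, fun h => absurd e h⟩
    by_cases e' : C j (g j) ⊆ C i (g i)
    · obtain ⟨A, hA, hA'⟩ := not_subset.1 fun h => hg.ne e (h.antisymm e')
      obtain ⟨Z, hZ, Z', hZ', h⟩ := (h j (g j)).2.inc hT (h i (g i)).2 hA hA'
      exact ⟨Z', hZ', Z, hZ, fun _ => inter_comm _ _ ▸ h⟩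
    · obtain ⟨A, hA, hA'⟩ := not_subset.1 e'
      obtain ⟨Z, hZ, Z', hZ', h⟩ := (h i (g i)).2.inc hT (h j (g j)).2 hA hA'
      exact ⟨Z, hZ, Z', hZ', fun _ => h⟩
  choose Z hZ Z' hZ' hZZ using inc
  rcases α.eq_empty_or_nonempty with rfl | hne
  · exact ⟨fun _ => ∅, by simp, by simp⟩
  obtain ⟨a, rfl⟩ := hα.exists_eq_range hne
  choose W hW hW' using fun i => (h i (g i)).2.pf hT (fun n => Z i (a n) ∩ Z' (a n) i)
    fun n => inter_mem (hZ _ _) (hZ' _ _)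
  have ad : ∀ m n, a m ≠ a n → (W (a m) ∩ W (a n)).Finite := fun m n e =>
    (((hW' (a m) n).union (hW' (a n) m)).union (hZZ _ _ e)).subset fun x => by simp; tauto
  let ix := Function.invFun a
  have hix : ∀ n, a (ix (a n)) = a n := fun n => Function.invFun_eq ⟨n, rfl⟩
  refine ⟨fun i => W i \ ⋃ m ∈ {m | m < ix i ∧ a m ≠ i}, W (a m) ∩ W i, ?_, ?_⟩
  · rintro _ ⟨n, rfl⟩
    exact inter_mem (hW _) (Br.le _ _ (Finite.compl_mem_cofinite (((finite_lt_nat _).subset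
      fun m hm => hm.1).biUnion fun m hm => ad _ _ hm.2)))
  · rintro _ ⟨m, rfl⟩ _ ⟨n, rfl⟩ e
    refine disjoint_left.2 fun x h1 h2 => ?_
    rcases lt_trichotomy (ix (a m)) (ix (a n)) with h | h | h
    · exact h2.2 (mem_biUnion (show ix (a m) ∈ _ from ⟨h, by rwa [hix]⟩) ⟨by rw [hix]; exact h1.1, h2.1⟩)
    · exact e (by rw [← hix m, h, hix])
    · exact h1.2 (mem_biUnion (show ix (a n) ∈ _ from ⟨h, by rw [hix]; exact e.symm⟩)
        ⟨by rw [hix]; exact h2.1, h1.1⟩)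

end Pool.Agent.H.MP_f6153b_al
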