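import Mathlib

open Set Filter Topology Pointwise

namespace Pool.Agent.H.MP_f6153b_al

/-- Every neighbourhood of `x` contains infinitely many points of `B`. -/
def AccPoint {X : Type} [TopologicalSpace X] (x : X) (B : Set X) : Prop :=
  ∀ U ∈ 𝓝 x, (U ∩ B).Infinite

/-- Countably compact: every infinite set has an accumulation point. -/
def CountablyCompact (X : Type) [TopologicalSpace X] : Prop :=
  ∀ B : Set X, B.Infinite → ∃ x, AccPoint x B

/-- Countably pracompact: every infinite subset of some dense set has an accumulation point. -/
def CountablyPracompact (X : Type) [TopologicalSpace X] : Prop :=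
  ∃ D : Set X, Dense D ∧ ∀ B ⊆ D, B.Infinite → ∃ x, AccPoint x B

/-- 2-pseudocompact (for a group written additively). -/
def TwoPseudocompact (G : Type) [AddGroup G] [TopologicalSpace G] : Prop :=
  ∀ U : ℕ → Set G, Antitone U → (∀ n, IsOpen (U n)) → (∀ n, (U n).Nonempty) →
    (⋂ n, closure (-U n)).Nonempty

end Pool.Agent.H.MP_f6153b_al
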