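import Pool.Agent.H.MP_f6153b_al.A
import Pool.Agent.H.MP_f6153b_al.Defs

open Set Filter Topology Pointwise Hyperreal

namespace Pool.Agent.H.MP_f6153b_al

/-- The cone topology of a submonoid. -/
@[reducible] def cone {G : Type} [AddCommGroup G] (M : AddSubmonoid G) : TopologicalSpace G where
  IsOpen U := ∀ x ∈ U, ∀ y, y - x ∈ M → y ∈ U
  isOpen_univ := fun _ _ _ _ => trivial
  isOpen_inter := fun _ _ h h' x hx y hy => ⟨h x hx.1 y hy, h' x hx.2 y hy⟩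
  isOpen_sUnion := fun _ h x ⟨t, ht, hx⟩ y hy => ⟨t, ht, h t ht x hx y hy⟩

lemma nhds_cone {G : Type} [AddCommGroup G] (M : AddSubmonoid G) (x : G) :
    @nhds _ (cone M) x = 𝓟 {y | y - x ∈ M} := by
  let _ := cone M
  ext U
  refine mem_nhds_iff.trans ⟨fun ⟨t, h1, h2, h3⟩ y hy => h1 (h2 x h3 y hy), fun h =>
    ⟨_, h, fun y hy z hz => ?_, by simp⟩⟩
  simpa using M.add_mem hz hy

lemma add_cone {G : Type} [AddCommGroup G] (M : AddSubmonoid G) :
    @ContinuousAdd _ (cone M) _ := by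
  let _ := cone M
  refine ⟨continuous_iff_continuousAt.2 fun p => ?_⟩
  rw [ContinuousAt, nhds_prod_eq, nhds_cone, nhds_cone, nhds_cone, prod_principal_principal,
    tendsto_principal_principal]
  intro q hq
  have := M.add_mem hq.1 hq.2
  simpa [add_sub_add_comm] using this

/-- The compact Boolean factor. -/
abbrev K : Type := ℕ → ZMod 2

/-- `l` is the first nonzero position of `k`. -/
def Lead (k : K) (l : ℕ) : Prop := k l ≠ 0 ∧ ∀ i < l, k i = 0

lemma Lead.uniq {k l l'} (h : Lead k l) (h' : Lead k l') : l = l' :=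
  le_antisymm (not_lt.1 fun e => h'.1 (h.2 _ e)) (not_lt.1 fun e => h.1 (h'.2 _ e))

/-- The tasks. -/
abbrev Ξ : Type := {ξ : ℕ → K // {j | Lead (ξ j) j}.Infinite}

/-- Functions with countable support. -/
def N : AddSubgroup (Ξ → ℝ*) where
  carrier := {z | (Function.support z).Countable}
  zero_mem' := by simp
  add_mem' := fun h h' => (Countable.union h h').mono (Function.support_add _ _)
  neg_mem' := fun h => by simpa using h

lemma hyper_lb (a : ℕ → ℝ*) : ∃ b, ∀ n, b < a n := by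
  choose f hf using fun n => ofSeq_surjective (a n)
  refine ⟨ofSeq fun k => -(∑ n ∈ Finset.range (k + 1), |f n k|) - 1, fun n => ?_⟩
  rw [← hf, ofSeq_lt_ofSeq]
  refine Nat.hyperfilter_le_atTop (mem_of_superset (Ici_mem_atTop n) fun k hk => ?_)
  have := Finset.single_le_sum (f := fun n => |f n k|) (fun _ _ => abs_nonneg _)
    (Finset.mem_range.2 (Nat.lt_succ_of_le hk))
  have := neg_abs_le (f n k)
  show -(∑ n ∈ Finset.range (k + 1), |f n k|) - 1 < f n k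
  linarith

lemma N_lb (ζ : ℕ → N) (ξ : Ξ) : ∃ z : N, ∀ n, z.1 ≤ (ζ n).1 ∧ z.1 ξ < (ζ n).1 ξ := by
  classical
  choose b hb using fun η => hyper_lb fun n => (ζ n).1 η
  let α := insert ξ (⋃ n, Function.support (ζ n).1)
  refine ⟨⟨α.indicator b, ((countable_iUnion fun n => (ζ n).2).insert ξ).mono
    support_indicator_subset⟩, fun n => ⟨fun η => ?_, ?_⟩⟩
  · by_cases h : η ∈ α
    · simpa [h] using (hb η n).le
    · have : (ζ n).1 η = 0 := by_contra fun e => h (.inr (mem_iUnion.2 ⟨n, e⟩))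
      simp [h, this]
  · simpa [show ξ ∈ α from .inl rfl] using hb ξ n

/-- The underlying group. -/
abbrev G : Type := K × N

/-- The basic cones. -/
def M (Φ : Ξ → Filter ℕ) (D : AddSubgroup K) : AddSubmonoid G where
  carrier := {x | 0 ≤ x.2.1 ∧ (x.1 ∈ D ∨ ∃ ξ, {j | ξ.1 j ∈ D} ∉ Φ ξ ∧ x.2.1 ξ ≠ 0)}
  zero_mem' := ⟨le_rfl, .inl D.zero_mem⟩
  add_mem' := by
    rintro a b ⟨a1, a2⟩ ⟨b1, b2⟩
    refine ⟨add_nonneg a1 b1, ?_⟩
    rcases a2 with a2 | ⟨ξ, a2, a3⟩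
    · rcases b2 with b2 | ⟨ξ, b2, b3⟩
      · exact .inl (D.add_mem a2 b2)
      · exact .inr ⟨ξ, b2, (add_pos_of_nonneg_of_pos (a1 ξ) ((b1 ξ).lt_of_ne' b3)).ne'⟩
    · exact .inr ⟨ξ, a2, (add_pos_of_pos_of_nonneg ((a1 ξ).lt_of_ne' a3) (b1 ξ)).ne'⟩

/-- The topology. -/
@[reducible] noncomputable def top (Φ : Ξ → Filter ℕ) : TopologicalSpace G := ⨅ D, cone (M Φ D)

lemma nhds_top (Φ x) : @nhds _ (top Φ) x = ⨅ D, 𝓟 {y | y - x ∈ M Φ D} := by
  simp only [nhds_iInf, nhds_cone]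

lemma mem_top (Φ x D) : {y | y - x ∈ M Φ D} ∈ @nhds _ (top Φ) x := by
  rw [nhds_top]; exact mem_iInf_of_mem D (mem_principal_self _)

lemma add_top (Φ) : @ContinuousAdd _ (top Φ) _ := continuousAdd_iInf fun _ => add_cone _

lemma t0_top (Φ) : @T0Space _ (top Φ) := by
  let _ := top Φ
  refine ⟨fun x y h => ?_⟩
  have h1 : y - x ∈ M Φ ⊥ := 
    mem_of_mem_nhds (s := {y | y - x ∈ M Φ ⊥}) (h.nhds_eq ▸ mem_top Φ x ⊥)
  have h2 : x - y ∈ M Φ ⊥ := 
    mem_of_mem_nhds (s := {x | x - y ∈ M Φ ⊥}) (h.nhds_eq.symm ▸ mem_top Φ y ⊥)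
  have e : x.2.1 = y.2.1 := le_antisymm (sub_nonneg.1 h1.1) (sub_nonneg.1 h2.1)
  refine Prod.ext ?_ (Subtype.ext e)
  rcases h2.2 with h | ⟨ξ, -, h⟩
  · exact sub_eq_zero.1 h
  · exact absurd (sub_eq_zero.2 (congrFun e ξ)) h

/-- The hypothesis on the filters. -/
def Ok (Φ : Ξ → Filter ℕ) : Prop :=
  ∀ ξ, Φ ξ ≤ cofinite ∧ {j | Lead (ξ.1 j) j} ∈ Φ ξ ∧ ∀ Z ∈ Φ ξ, Z.Infinite

lemma cc_top {Φ} (h : Ok Φ) : @CountablyCompact _ (top Φ) := by
  classical
  let _ := top Φ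
  intro B hB
  let b := hB.natEmbedding
  have : ∀ i, ∃ a, ∀ᶠ n in hyperfilter ℕ, (b n).1.1 i = a := fun i => by
    obtain ⟨a, ha⟩ := Ultrafilter.eq_pure_of_finite ((hyperfilter ℕ).map fun n => (b n).1.1 i)
    exact ⟨a, show {a} ∈ (hyperfilter ℕ).map fun n => (b n).1.1 i from ha ▸ rfl⟩
  choose κ hκ using this
  by_cases hJ : {j | ∃ n, Lead ((b n).1.1 - κ) j}.Infinite
  · choose! n hn using fun j (hj : ∃ n, Lead ((b n).1.1 - κ) j) => hj
    let ξ : Ξ := ⟨fun j => (b (n j)).1.1 - κ, hJ.mono hn⟩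
    obtain ⟨z, hz⟩ := N_lb (fun n => (b n).1.2) ξ
    have t : Tendsto (fun j => (b (n j)).1) (Φ ξ) (𝓝 (κ, z)) := by
      rw [nhds_top]
      refine tendsto_iInf.2 fun D => tendsto_principal.2 ?_
      by_cases hD : {j | ξ.1 j ∈ D} ∈ Φ ξ
      · exact mem_of_superset hD fun j hj => ⟨sub_nonneg.2 (hz _).1, .inl hj⟩
      · exact .of_forall fun j => ⟨sub_nonneg.2 (hz _).1, .inr ⟨ξ, hD, (sub_pos.2 (hz _).2).ne'⟩⟩
    refine ⟨(κ, z), fun U hU => ?_⟩
    refine (((h ξ).2.2 _ (inter_mem (t hU) (h ξ).2.1)).image (f := fun j => (b (n j)).1)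
      fun i hi j hj e => ?_).mono ?_
    · have : Lead ((b (n j)).1.1 - κ) i := by
        have := hi.2
        simp only [mem_ofPred_eq, ξ] at this
        rwa [show (b (n i)).1 = (b (n j)).1 from e] at this
      exact this.uniq hj.2
    · rintro _ ⟨j, hj, rfl⟩
      exact ⟨hj.1, (b _).2⟩
  · obtain ⟨m, hm⟩ := (not_infinite.1 hJ).bddAbove
    have : ∀ᶠ n in hyperfilter ℕ, (b n).1.1 = κ := by
      filter_upwards [(eventually_all_finite (finite_le_nat m)).2 fun i _ => hκ i] with n hn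
      by_contra e
      have e : ∃ i, ((b n).1.1 - κ) i ≠ 0 := Function.ne_iff.1 (sub_ne_zero.2 e)
      exact Nat.find_spec e (sub_eq_zero.2 (hn _ (hm ⟨n, Nat.find_spec e, fun i hi =>
        not_not.1 (Nat.find_min e hi)⟩)))
    obtain ⟨z, hz⟩ := N_lb (fun n => (b n).1.2) ⟨fun j => Pi.single j 1,
      infinite_univ.mono fun j _ => ⟨by simp, fun i hi => by simp [hi.ne]⟩⟩
    have t : Tendsto (fun j => (b j).1) (hyperfilter ℕ) (𝓝 (κ, z)) := by
      rw [nhds_top]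
      refine tendsto_iInf.2 fun D => tendsto_principal.2 (this.mono fun j hj => ?_)
      exact ⟨sub_nonneg.2 (hz _).1, .inl (by simp [hj])⟩
    refine ⟨(κ, z), fun U hU => ?_⟩
    refine ((show Set.Infinite _ from fun hf => notMem_hyperfilter_of_finite hf (t hU)).image
      (f := fun j => (b j).1) (Subtype.val_injective.comp b.injective).injOn).mono ?_
    rintro _ ⟨j, hj, rfl⟩
    exact ⟨hj, (b _).2⟩

lemma CountablyCompact.two {X : Type} [AddGroup X] [TopologicalSpace X] (h : CountablyCompact X) :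
    TwoPseudocompact X := by
  intro U hU _ hne
  choose a ha using hne
  by_cases hf : (range fun n => -a n).Infinite
  · obtain ⟨x, hx⟩ := h _ hf
    refine ⟨x, mem_iInter.2 fun n => mem_closure_iff_nhds.2 fun V hV => ?_⟩
    obtain ⟨_, ⟨h1, m, rfl⟩, h2⟩ := ((hx V hV).sdiff ((finite_lt_nat n).image fun n => -a n)).nonempty
    exact ⟨_, h1, neg_mem_neg.2 (hU (not_lt.1 fun e => h2 ⟨m, e, rfl⟩) (ha m))⟩
  · have := (not_infinite.1 hf).to_subtype
    obtain ⟨⟨x, hx⟩, hx'⟩ := Finite.exists_infinite_fiber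
      fun n => (⟨-a n, n, rfl⟩ : range fun n => -a n)
    refine ⟨x, mem_iInter.2 fun n => subset_closure ?_⟩
    obtain ⟨m, hm, hm'⟩ := (infinite_coe_iff.1 hx').exists_gt n
    obtain rfl : -a m = x := congrArg Subtype.val hm
    exact neg_mem_neg.2 (hU hm'.le (ha m))

lemma span (w : ℕ → K) (L : Set ℕ) (hw : ∀ j ∈ L, Lead (w j) j) :
    ∃ D : AddSubgroup K, (∀ j ∈ L, w j ∈ D) ∧ ∀ k ∈ D, ∀ l, Lead k l → l ∈ L := by
  classical
  let T : K →+ K :=
    { toFun := fun c i => ∑ j ∈ (Finset.range (i + 1)).filter (· ∈ L), c j * w j i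
      map_zero' := by ext; simp
      map_add' := fun a b => by ext; simp [add_mul, Finset.sum_add_distrib] }
  have hT : ∀ c i, T c i = ∑ j ∈ (Finset.range (i + 1)).filter (· ∈ L), c j * w j i :=
    fun _ _ => rfl
  refine ⟨T.range, fun j hj => ⟨Pi.single j 1, funext fun i => ?_⟩, ?_⟩
  · rw [hT, Finset.sum_eq_single j (fun b _ hb => by simp [hb]) fun h => ?_]
    · simp
    · rw [(hw j hj).2 i (by simpa [hj] using h), mul_zero]
  rintro _ ⟨c, rfl⟩ l hl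
  by_contra hn
  have : ∀ j < l, j ∈ L → c j = 0 := by
    intro j
    induction j using Nat.strong_induction_on with
    | _ j ih =>
      intro h1 h2
      have := hl.2 j h1
      rw [hT, Finset.sum_eq_single j (fun b hb hb' => ?_) fun h => absurd (by simp [h2]) h] at this
      · exact (mul_eq_zero.1 this).resolve_right (hw j h2).1
      · simp only [Finset.mem_filter, Finset.mem_range] at hb
        rw [ih b (by omega) (by omega) hb.2, zero_mul]
  refine hl.1 ((hT _ _).trans (Finset.sum_eq_zero fun b hb => ?_))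
  simp only [Finset.mem_filter, Finset.mem_range] at hb
  rw [this b (lt_of_le_of_ne (by omega) fun e => hn (e ▸ hb.2)) hb.2, zero_mul]

theorem exists_pair : ∃ Φ Ψ : Ξ → Filter ℕ, Ok Φ ∧ Ok Ψ ∧ ∀ α : Set Ξ, α.Countable →
    ∃ D E : AddSubgroup K, (∀ ξ ∈ α, {j | ξ.1 j ∈ D} ∈ Φ ξ ∧ {j | ξ.1 j ∈ E} ∈ Ψ ξ) ∧
      ∀ k ∈ D, ∀ k' ∈ E, ∀ l, Lead k l → ¬ Lead k' l := by
  have : Nonempty Ξ := ⟨⟨fun j => Pi.single j 1,
    infinite_univ.mono fun j _ => ⟨by simp, fun i hi => by simp [hi.ne]⟩⟩⟩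
  obtain ⟨Φ, h1, h2⟩ := filters (ι := Ξ × Bool) (by
    have : Cardinal.mk Ξ ≤ Cardinal.continuum := (Cardinal.mk_subtype_le _).trans (by simp)
    simpa using (mul_le_mul_left this 2).trans (by simp)) (fun p => {j | Lead (p.1.1 j) j})
    fun p => p.1.2
  refine ⟨fun ξ => Φ (ξ, true), fun ξ => Φ (ξ, false), fun ξ => h1 _, fun ξ => h1 _,
    fun α hα => ?_⟩
  obtain ⟨Z, z1, z2⟩ := h2 (α ×ˢ univ) (hα.prod countable_univ)
  have : ∀ b : Bool, ∃ D : AddSubgroup K, (∀ ξ ∈ α, {j | ξ.1 j ∈ D} ∈ Φ (ξ, b)) ∧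
      ∀ k ∈ D, ∀ l, Lead k l → ∃ ξ ∈ α, l ∈ Z (ξ, b) := by
    intro b
    choose! s s1 s2 s3 using fun j (hj : ∃ ξ ∈ α, j ∈ Z (ξ, b) ∧ Lead (ξ.1 j) j) => hj
    obtain ⟨D, d1, d2⟩ := span (fun j => (s j).1 j) _ s3
    refine ⟨D, fun ξ hξ => ?_, fun k hk l hl => ⟨_, s1 l (d2 k hk l hl), s2 l (d2 k hk l hl)⟩⟩
    filter_upwards [z1 (ξ, b) ⟨hξ, trivial⟩, (h1 (ξ, b)).2.1] with j j1 j2
    have hj : ∃ ξ ∈ α, j ∈ Z (ξ, b) ∧ Lead (ξ.1 j) j := ⟨ξ, hξ, j1, j2⟩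
    have : s j = ξ := by_contra fun e => disjoint_left.1 (z2 (s j, b) ⟨s1 j hj, trivial⟩ (ξ, b)
      ⟨hξ, trivial⟩ fun h => e (congrArg Prod.fst h)) (s2 j hj) j1
    exact this ▸ d1 j hj
  choose D d1 d2 using this
  refine ⟨D true, D false, fun ξ hξ => ⟨d1 _ ξ hξ, d1 _ ξ hξ⟩, fun k hk k' hk' l h h' => ?_⟩
  obtain ⟨ξ, hξ, a⟩ := d2 _ k hk l h
  obtain ⟨η, hη, b⟩ := d2 _ k' hk' l h'
  exact disjoint_left.1 (z2 (ξ, true) ⟨hξ, trivial⟩ (η, false) ⟨hη, trivial⟩ (by simp)) a b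

/-- Sequences vanishing below `m`. -/
def O (m : ℕ) : AddSubgroup K where
  carrier := {k | ∀ i < m, k i = 0}
  zero_mem' := fun _ _ => rfl
  add_mem' := fun h h' i hi => by simp [h i hi, h' i hi]
  neg_mem' := fun h i hi => by simp [h i hi]

lemma Ok.eq {Φ} (h : Ok Φ) {m} {x y : G} (hy : y - x ∈ M Φ (O m)) : ∀ i < m, y.1 i = x.1 i := by
  rcases hy.2 with h' | ⟨ξ, h', -⟩
  · exact fun i hi => sub_eq_zero.1 (h' i hi)
  · refine (h' ?_).elim
    filter_upwards [(h ξ).2.1, (h ξ).1 (Nat.cofinite_eq_atTop ▸ Ici_mem_atTop m)] with j h1 h2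
    exact fun i hi => h1.2 i (hi.trans_le h2)

/-- The open sets used for the product. -/
def A (l : ℕ) : Set G := {x | 0 ≤ x.2.1 ∧ Lead x.1 l}

lemma A_ne (l) : (A l).Nonempty :=
  ⟨(Pi.single l 1, 0), le_rfl, by simp, fun i hi => by simp [hi.ne]⟩

lemma Ok.open {Φ} (h : Ok Φ) (l) : IsOpen[top Φ] (A l) := by
  let _ := top Φ
  refine isOpen_iff_mem_nhds.2 fun x hx => mem_of_superset (mem_top Φ x (O (l + 1))) fun y hy => ?_
  refine ⟨hx.1.trans (sub_nonneg.1 hy.1), ?_, fun i hi => ?_⟩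
  · rw [h.eq hy l (by omega)]; exact hx.2.1
  · rw [h.eq hy i (by omega)]; exact hx.2.2 i hi

theorem pair : ∃ Φ Ψ : Ξ → Filter ℕ, Ok Φ ∧ Ok Ψ ∧ ∀ (x x' : G) (α : Set Ξ), α.Countable →
    ∃ V ∈ @nhds _ (top Φ) x, ∃ V' ∈ @nhds _ (top Ψ) x', ∃ n, ∀ y ∈ V, ∀ y' ∈ V', ∀ l ≥ n,
      (0 ≤ (y - x).2.1 → Function.support (y - x).2.1 ⊆ α) →
      (0 ≤ (y' - x').2.1 → Function.support (y' - x').2.1 ⊆ α) →
      Lead y.1 l → ¬ Lead y'.1 l := by
  obtain ⟨Φ, Ψ, h1, h2, h3⟩ := exists_pair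
  refine ⟨Φ, Ψ, h1, h2, fun x x' α hα => ?_⟩
  by_cases e : x.1 = 0
  · by_cases e' : x'.1 = 0
    · obtain ⟨D, E, d1, d2⟩ := h3 α hα
      refine ⟨_, mem_top Φ x D, _, mem_top Ψ x' E, 0, fun y hy y' hy' l _ s s' => d2 _ ?_ _ ?_ l⟩
      · rcases hy.2 with h | ⟨ξ, h, h'⟩
        · simpa [e] using h
        · exact absurd (d1 ξ (s hy.1 h')).1 h
      · rcases hy'.2 with h | ⟨ξ, h, h'⟩
        · simpa [e'] using h
        · exact absurd (d1 ξ (s' hy'.1 h')).2 h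
    · obtain ⟨i, hi⟩ := Function.ne_iff.1 e'
      exact ⟨_, univ_mem, _, mem_top Ψ x' (O (i + 1)), i + 1, fun y _ y' hy' l hl _ _ _ h =>
        hi ((h2.eq hy' i (by omega)).symm.trans (h.2 i hl))⟩
  · obtain ⟨i, hi⟩ := Function.ne_iff.1 e
    exact ⟨_, mem_top Φ x (O (i + 1)), _, univ_mem, i + 1, fun y hy y' _ l hl _ _ h _ =>
      hi ((h1.eq hy i (by omega)).symm.trans (h.2 i hl))⟩

theorem main : ∃ s t : TopologicalSpace G,
    (@ContinuousAdd _ s _ ∧ @T0Space _ s ∧ @CountablyCompact _ s) ∧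
    (@ContinuousAdd _ t _ ∧ @T0Space _ t ∧ @CountablyCompact _ t) ∧
    ¬ @TwoPseudocompact (G × G) _ (@instTopologicalSpaceProd _ _ s t) ∧
    ¬ @CountablyPracompact (G × G) (@instTopologicalSpaceProd _ _ s t) := by
  obtain ⟨Φ, Ψ, h1, h2, h3⟩ := pair
  have op : ∀ l, IsOpen[@instTopologicalSpaceProd _ _ (top Φ) (top Ψ)] (A l ×ˢ A l) := fun l =>
    @IsOpen.prod _ _ (top Φ) (top Ψ) _ _ (h1.open l) (h2.open l)
  have nb : ∀ x x' V V', V ∈ @nhds _ (top Φ) x → V' ∈ @nhds _ (top Ψ) x' →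
      V ×ˢ V' ∈ @nhds _ (@instTopologicalSpaceProd _ _ (top Φ) (top Ψ)) (x, x') :=
    fun x x' V V' => @prod_mem_nhds _ _ (top Φ) (top Ψ) _ _ _ _
  refine ⟨top Φ, top Ψ, ⟨add_top _, t0_top _, cc_top h1⟩, ⟨add_top _, t0_top _, cc_top h2⟩,
    fun h => ?_, ?_⟩
  · let _ := @instTopologicalSpaceProd _ _ (top Φ) (top Ψ)
    obtain ⟨⟨x, x'⟩, hx⟩ := h (fun n => ⋃ l ≥ n, A l ×ˢ A l)
      (fun a b hab => biUnion_subset_biUnion_left fun l hl => le_trans hab hl)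
      (fun n => isOpen_biUnion fun l _ => op l)
      fun n => ((A_ne n).prod (A_ne n)).mono fun _ h => mem_iUnion₂.2 ⟨n, le_rfl, h⟩
    obtain ⟨V, hV, V', hV', n, hn⟩ := h3 x x' _ (Countable.union x.2.2 x'.2.2)
    obtain ⟨⟨y, y'⟩, hy, hy'⟩ := mem_closure_iff_nhds.1 (mem_iInter.1 hx n) _ (nb _ _ _ _ hV hV')
    obtain ⟨l, hl, a1, a2⟩ := mem_iUnion₂.1 (mem_neg.1 hy')
    have sp : ∀ y x : G, 0 ≤ (-y).2.1 → 0 ≤ (y - x).2.1 →
        Function.support (y - x).2.1 ⊆ Function.support x.2.1 := by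
      intro y x h h' ξ hξ e
      have a : 0 ≤ -y.2.1 ξ := h ξ
      have b : 0 ≤ y.2.1 ξ - x.2.1 ξ := h' ξ
      exact hξ (show y.2.1 ξ - x.2.1 ξ = 0 by linarith)
    have ld : ∀ y : G, Lead (-y).1 l → Lead y.1 l := fun y h =>
      ⟨fun e => h.1 (neg_eq_zero.2 e), fun i hi => neg_eq_zero.1 (h.2 i hi)⟩
    exact hn y hy.1 y' hy.2 l hl (fun h => (sp _ _ a1.1 h).trans subset_union_left)
      (fun h => (sp _ _ a2.1 h).trans subset_union_right) (ld _ a1.2) (ld _ a2.2)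
  · let _ := @instTopologicalSpaceProd _ _ (top Φ) (top Ψ)
    rintro ⟨D, hD, h⟩
    choose d d1 d2 using fun l => hD.exists_mem_open (op l) ((A_ne l).prod (A_ne l))
    obtain ⟨⟨x, x'⟩, hx⟩ := h (range d) (range_subset_iff.2 d1) (infinite_range_of_injective
      fun a b e => (d2 a).1.2.uniq (e ▸ (d2 b).1.2))
    obtain ⟨V, hV, V', hV', n, hn⟩ := h3 x x' _ (countable_iUnion fun l =>
      Countable.union ((d l).1 - x).2.2 ((d l).2 - x').2.2)
    obtain ⟨_, ⟨h1, l, rfl⟩, h2⟩ := ((hx _ (nb _ _ _ _ hV hV')).sdiff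
      ((finite_lt_nat n).image d)).nonempty
    exact hn _ h1.1 _ h1.2 l (not_lt.1 fun e => h2 ⟨l, e, rfl⟩)
      (fun _ => subset_union_left.trans (subset_iUnion (fun l => Function.support ((d l).1 - x).2.1 ∪
        Function.support ((d l).2 - x').2.1) l))
      (fun _ => subset_union_right.trans (subset_iUnion (fun l => Function.support ((d l).1 - x).2.1 ∪
        Function.support ((d l).2 - x').2.1) l)) (d2 l).1.2 (d2 l).2.2

lemma TwoPseudocompact.image {X Y : Type} [AddGroup X] [AddGroup Y] [TopologicalSpace X]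
    [TopologicalSpace Y] (h : TwoPseudocompact X) (f : X →+ Y) (hf : Continuous f)
    (hs : Function.Surjective f) : TwoPseudocompact Y := by
  intro U h1 h2 h3
  obtain ⟨x, hx⟩ := h (fun n => f ⁻¹' U n) (fun a b e => preimage_mono (h1 e))
    (fun n => (h2 n).preimage hf) fun n => (h3 n).preimage hs
  refine ⟨f x, mem_iInter.2 fun n => map_mem_closure hf (mem_iInter.1 hx n) fun y hy => ?_⟩
  simpa using hy

lemma CountablyPracompact.image {X Y : Type} [TopologicalSpace X] [TopologicalSpace Y]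
    (h : CountablyPracompact X) (f : X → Y) (hf : Continuous f) (hs : Function.Surjective f) :
    CountablyPracompact Y := by
  obtain ⟨D, hD, h⟩ := h
  refine ⟨f '' D, hs.denseRange.dense_image hf hD, fun B hB hB' => ?_⟩
  have : Nonempty X := ⟨(hs hB'.nonempty.some).choose⟩
  choose! g g1 g2 using fun b (hb : b ∈ B) => hB hb
  have inj : InjOn g B := fun a ha b hb e => by rw [← g2 a ha, e, g2 b hb]
  obtain ⟨x, hx⟩ := h (g '' B) (by rintro _ ⟨b, hb, rfl⟩; exact g1 b hb) (hB'.image inj)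
  refine ⟨f x, fun U hU hf' => hx _ (hf.tendsto x hU) ((hf'.image g).subset ?_)⟩
  rintro _ ⟨h1, b, hb, rfl⟩
  exact ⟨b, ⟨g2 b hb ▸ h1, hb⟩, rfl⟩

theorem family (ι : Type) [Nontrivial ι] : ∃ t : ι → TopologicalSpace G,
    (∀ i, @ContinuousAdd _ (t i) _ ∧ @T0Space _ (t i) ∧ @CountablyCompact _ (t i)) ∧
    ¬ @TwoPseudocompact (ι → G) _ (@Pi.topologicalSpace _ _ t) ∧
    ¬ @CountablyPracompact (ι → G) (@Pi.topologicalSpace _ _ t) := by
  classical
  obtain ⟨s, t, hs, ht, h1, h2⟩ := main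
  obtain ⟨a, b, hab⟩ := exists_pair_ne ι
  let T : ι → TopologicalSpace G := fun i => if i = a then s else t
  let f : (ι → G) →+ G × G := (Pi.evalAddMonoidHom _ a).prod (Pi.evalAddMonoidHom _ b)
  have hc : @Continuous _ _ (@Pi.topologicalSpace _ _ T) (@instTopologicalSpaceProd _ _ s t) f := by
    have ha := @continuous_apply _ _ T a
    have hb := @continuous_apply _ _ T b
    rw [show T a = s from if_pos rfl] at ha
    rw [show T b = t from if_neg hab.symm] at hb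
    exact @Continuous.prodMk _ _ _ s t (@Pi.topologicalSpace _ _ T) _ _ ha hb
  have hf : Function.Surjective f := fun p => ⟨fun i => if i = a then p.1 else p.2, by
    simp [f, hab.symm]⟩
  refine ⟨T, fun i => ?_, fun h => h1 (@TwoPseudocompact.image _ _ _ _ (id _) (id _) h f hc hf),
    fun h => h2 (@CountablyPracompact.image _ _ (id _) (id _) h f hc hf)⟩
  by_cases e : i = a
  · rw [show T i = s from if_pos e]; exact hs
  · rw [show T i = t from if_neg e]; exact ht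

end Pool.Agent.H.MP_f6153b_al
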